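import Pool.Agent.W434.BW.StmB
import Pool.Agent.W434.BW.Basic

/-! Project BW: a strongly connected sink component of the propagation of good sets (BW-MPR). -/

set_option autoImplicit false

namespace Pool.Agent.W174.BW

open Pool.Agent.W434.BW

variable {V St A : Type} (S : Sys V St A)

/-- image of a set under a list of steps -/
def Im (l : List St) (C : Set A) : Set A := {b | ∃ a ∈ C, S.Rl l a b}

theorem im_nil (C : Set A) : Im S [] C = C := by
  ext b
  constructor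
  · rintro ⟨a, ha, h⟩
    have h' : a = b := h
    rwa [← h']
  · intro h
    exact ⟨b, h, rfl⟩

theorem im_cons (s : St) (l : List St) (C : Set A) : Im S (s :: l) C = Im S l (S.img s C) := by
  ext b
  constructor
  · rintro ⟨a, ha, c, h1, h2⟩
    exact ⟨c, ⟨a, ha, h1⟩, h2⟩
  · rintro ⟨c, ⟨a, ha, h1⟩, h2⟩
    exact ⟨a, ha, c, h1, h2⟩

theorem im_append (l m : List St) (C : Set A) : Im S (l ++ m) C = Im S m (Im S l C) := by
  induction l generalizing C with
  | nil => rw [List.nil_append, im_nil]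
  | cons s l ih => rw [List.cons_append, im_cons, im_cons, ih]

theorem im_rep (l : List St) (D : Set A) (h : Im S l D = D) (j : ℕ) : Im S (rep j l) D = D := by
  induction j with
  | zero => rw [rep_zero, im_nil]
  | succ j ih => rw [rep_succ, im_append, h, ih]

theorem key (hQ : S.Qc) (s : St) (C D : Set A) (π ρ : List St)
    (h1 : S.IsPath π (S.src s) (S.tgt s)) (h2 : S.IsPath ρ (S.tgt s) (S.src s))
    (h3 : Im S π C = D) (h4 : Im S ρ D = C) (a b : A) (hE : S.E s a b) (ha : a ∈ C) : b ∈ D := by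
  obtain ⟨N, hN⟩ := hQ s π ρ h1 h2
  have h5 := hN N le_rfl a b hE
  have h6 : b ∈ Im S (π ++ rep N (ρ ++ π)) C := ⟨a, ha, h5⟩
  rw [im_append, h3, im_rep S (ρ ++ π) D (by rw [im_append, h4, h3])] at h6
  exact h6

/-- arrows between nodes -/
def Ar (Good : V → Set A → Prop) (n m : V × Set A) : Prop :=
  Good m.1 m.2 ∧ ∃ s, S.src s = n.1 ∧ S.tgt s = m.1 ∧ m.2 = S.img s n.2

theorem reach_path (Good : V → Set A → Prop) (n m : V × Set A)
    (h : Relation.ReflTransGen (Ar S Good) n m) :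
    ∃ π, S.IsPath π n.1 m.1 ∧ Im S π n.2 = m.2 := by
  induction h using Relation.ReflTransGen.head_induction_on with
  | refl => exact ⟨[], rfl, im_nil S _⟩
  | head h1 _ ih =>
    obtain ⟨π, h2, h3⟩ := ih
    obtain ⟨-, s, h4, h5, h6⟩ := h1
    refine ⟨s :: π, ⟨h4, ?_⟩, ?_⟩
    · rw [h5]; exact h2
    · rw [im_cons, ← h6]; exact h3

theorem reach_good (Good : V → Set A → Prop) (n m : V × Set A) (hn : Good n.1 n.2)
    (h : Relation.ReflTransGen (Ar S Good) n m) : Good m.1 m.2 := by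
  induction h with
  | refl => exact hn
  | tail _ h1 _ => exact h1.1

theorem sink [Finite V] [Finite A] (Good : V → Set A → Prop) (h : ∃ n : V × Set A, Good n.1 n.2) :
    ∃ n : V × Set A, Good n.1 n.2 ∧ ∀ m, Relation.ReflTransGen (Ar S Good) n m →
      Relation.ReflTransGen (Ar S Good) m n := by
  classical
  obtain ⟨f, hf⟩ : ∃ f : V × Set A → ℕ,
    f = fun n => {m | Relation.ReflTransGen (Ar S Good) n m}.ncard := ⟨_, rfl⟩
  have hex : ∃ k : ℕ, ∃ n : V × Set A, Good n.1 n.2 ∧ f n = k := by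
    obtain ⟨n, hn⟩ := h
    exact ⟨f n, n, hn, rfl⟩
  obtain ⟨n, hn, hk⟩ := Nat.find_spec hex
  refine ⟨n, hn, ?_⟩
  intro m hm
  have h1 : Nat.find hex ≤ f m := Nat.find_min' hex ⟨m, reach_good S Good n m hn hm, rfl⟩
  rw [← hk, hf] at h1
  have h2 : {k | Relation.ReflTransGen (Ar S Good) m k} ⊆
      {k | Relation.ReflTransGen (Ar S Good) n k} := fun k hk => hm.trans hk
  have h3 := Set.eq_of_subset_of_ncard_le h2 h1 (Set.toFinite _)
  have h4 : n ∈ {k | Relation.ReflTransGen (Ar S Good) n k} := Relation.ReflTransGen.refl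
  rw [← h3] at h4
  exact h4

theorem mproc : S_mproc := by
  classical
  intro V St A _ _ S Good hS hQ hG hI hex
  obtain ⟨n0, hn0, hback⟩ := sink S Good (by
    obtain ⟨x, C, h⟩ := hex
    exact ⟨(x, C), h⟩)
  obtain ⟨M, hM⟩ : ∃ M : Set (V × Set A), M = {m | Relation.ReflTransGen (Ar S Good) n0 m} :=
    ⟨_, rfl⟩
  have hMr : ∀ m ∈ M, ∀ m' ∈ M, Relation.ReflTransGen (Ar S Good) m m' := by
    intro m hm m' hm'
    rw [hM] at hm hm'
    exact (hback m hm).trans hm'
  have hMg : ∀ m ∈ M, Good m.1 m.2 := by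
    intro m hm
    rw [hM] at hm
    exact reach_good S Good n0 m hn0 hm
  have huniq : ∀ x C D, (x, C) ∈ M → (x, D) ∈ M → C ⊆ D := by
    intro x C D hC hD a ha
    obtain ⟨π, h1, h2⟩ := reach_path S Good _ _ (hMr _ hC _ hD)
    obtain ⟨ρ, h3, h4⟩ := reach_path S Good _ _ (hMr _ hD _ hC)
    have haP : a ∈ S.P x := (hG x C (hMg _ hC)).1 ha
    refine key S hQ (S.idst x) C D π ρ ?_ ?_ h2 h4 a a ((hS.id_E x a a).2 ⟨rfl, haP⟩) ha
    · rw [hS.src_id, hS.tgt_id]; exact h1
    · rw [hS.src_id, hS.tgt_id]; exact h3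
  obtain ⟨W, hW⟩ : ∃ W : Set V, W = {x | ∃ C, (x, C) ∈ M} := ⟨_, rfl⟩
  have hC : ∃ C : V → Set A, ∀ x ∈ W, (x, C x) ∈ M := by
    have : ∀ x, ∃ C : Set A, x ∈ W → (x, C) ∈ M := by
      intro x
      by_cases hx : x ∈ W
      · have hx' := hx
        rw [hW] at hx'
        obtain ⟨C, hC⟩ := hx'
        exact ⟨C, fun _ => hC⟩
      · exact ⟨∅, fun h => absurd h hx⟩
    choose C hC using this
    exact ⟨C, hC⟩
  obtain ⟨C, hC⟩ := hC
  have hstep : ∀ s, S.src s ∈ W → S.img s (C (S.src s)) = S.P (S.tgt s) ∨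
      (S.tgt s ∈ W ∧ S.img s (C (S.src s)) = C (S.tgt s)) := by
    intro s hs
    rcases hI s (C (S.src s)) (hMg _ (hC _ hs)) with h | h
    · exact Or.inl h
    · right
      have h1 : (S.tgt s, S.img s (C (S.src s))) ∈ M := by
        have h2 := hC _ hs
        rw [hM] at h2 ⊢
        exact Relation.ReflTransGen.tail h2 ⟨h, s, rfl, rfl, rfl⟩
      have h2 : S.tgt s ∈ W := by rw [hW]; exact ⟨_, h1⟩
      exact ⟨h2, Set.Subset.antisymm (huniq _ _ _ h1 (hC _ h2)) (huniq _ _ _ (hC _ h2) h1)⟩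
  have hfwd : ∀ s, S.src s ∈ W → S.tgt s ∈ W → ∀ a b, S.E s a b → a ∈ C (S.src s) →
      b ∈ C (S.tgt s) := by
    intro s hs ht a b hE ha
    obtain ⟨π, h1, h2⟩ := reach_path S Good _ _ (hMr _ (hC _ hs) _ (hC _ ht))
    obtain ⟨ρ, h3, h4⟩ := reach_path S Good _ _ (hMr _ (hC _ ht) _ (hC _ hs))
    exact key S hQ s _ _ π ρ h1 h3 h2 h4 a b hE ha
  refine ⟨W, C, ?_, ?_, ?_, ?_, ?_⟩
  · refine ⟨n0.1, ?_⟩
    rw [hW, hM]
    exact ⟨n0.2, Relation.ReflTransGen.refl⟩
  · intro x hx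
    exact hMg _ (hC x hx)
  · intro s hs _
    rcases hstep s hs with h | h
    · exact Or.inr h
    · exact Or.inl h.2
  · intro s hs ht
    rcases hstep s hs with h | h
    · exact h
    · exact absurd h.1 ht
  · intro s hs ht a b hE
    constructor
    · exact hfwd s hs ht a b hE
    · intro hb
      have h1 := hfwd (S.rev s) (by rw [hS.src_rev]; exact ht) (by rw [hS.tgt_rev]; exact hs) b a
        ((hS.rev_E s a b).2 hE)
      rw [hS.src_rev, hS.tgt_rev] at h1
      exact h1 hb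

end Pool.Agent.W174.BW
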